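import Pool.Agent.U866.OM.Stm

/-!
Project OM, package T (helper612): the total scalar curvature of a compactly supported Euclidean graph.
-/

set_option autoImplicit false

namespace Pool.Agent.U612.OM

open Pool.Agent.U866.OM
open Pool.Agent.H498R3.GB (E MetricField pd Scal volDensity)
open scoped BigOperators ContDiff Topology
open MeasureTheory Filter

variable {m : ℕ}

lemma contDiff_pd {f : E m → ℝ} (hf : ContDiff ℝ ∞ f) (i : Fin m) : ContDiff ℝ ∞ (pd i f) := by
  unfold Pool.Agent.H498R3.GB.pd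
  exact (hf.fderiv_right (m := ∞) (by simp)).clm_apply contDiff_const

lemma pd_ev_zero {f : E m → ℝ} {x : E m} (h : f =ᶠ[𝓝 x] (fun _ => (0 : ℝ))) (i : Fin m) :
    pd i f =ᶠ[𝓝 x] (fun _ => (0 : ℝ)) := by
  have h1 := h.fderiv (𝕜 := ℝ)
  filter_upwards [h1] with y hy
  unfold Pool.Agent.H498R3.GB.pd
  rw [hy]
  simp

lemma A_zero {v : E m → ℝ} {x : E m} (hx : x ∉ tsupport v) (i j : Fin m) : A v x i j = 0 := by
  have h0 : v =ᶠ[𝓝 x] (fun _ => (0 : ℝ)) := notMem_tsupport_iff_eventuallyEq.1 hx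
  exact (pd_ev_zero (pd_ev_zero h0 j) i).self_of_nhds

lemma cont_A {v : E m → ℝ} (hv : ContDiff ℝ ∞ v) (i j : Fin m) : Continuous fun x => A v x i j :=
  (contDiff_pd (contDiff_pd hv j) i).continuous

lemma cont_p {v : E m → ℝ} (hv : ContDiff ℝ ∞ v) (i : Fin m) : Continuous fun x => p v x i :=
  (contDiff_pd hv i).continuous

lemma W2_ge (v : E m → ℝ) (x : E m) : 1 ≤ W2 v x := by
  unfold W2
  have : 0 ≤ ∑ i, p v x i ^ 2 := Finset.sum_nonneg fun i _ => sq_nonneg _
  linarith

lemma cont_W2 {v : E m → ℝ} (hv : ContDiff ℝ ∞ v) : Continuous fun x => W2 v x := by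
  unfold W2
  exact continuous_const.add (continuous_finset_sum _ fun i _ => (cont_p hv i).pow 2)

lemma cont_S2 {v : E m → ℝ} (hv : ContDiff ℝ ∞ v) : Continuous fun x => S2 v x := by
  unfold S2
  exact ((continuous_finset_sum _ fun i _ => cont_A hv i i).pow 2).sub
    (continuous_finset_sum _ fun i _ => continuous_finset_sum _ fun j _ => (cont_A hv i j).pow 2)

lemma cont_Q {v : E m → ℝ} (hv : ContDiff ℝ ∞ v) : Continuous fun x => Q v x := by
  unfold Q
  refine ((continuous_finset_sum _ fun i _ => cont_A hv i i).mul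
    (continuous_finset_sum _ fun i _ => continuous_finset_sum _ fun j _ =>
      ((cont_A hv i j).mul (cont_p hv i)).mul (cont_p hv j))).sub
    (continuous_finset_sum _ fun i _ => (continuous_finset_sum _ fun j _ =>
      (cont_A hv i j).mul (cont_p hv j)).pow 2)

lemma S2_zero {v : E m → ℝ} {x : E m} (hx : x ∉ tsupport v) : S2 v x = 0 := by
  unfold S2; simp [A_zero hx]

lemma Q_zero {v : E m → ℝ} {x : E m} (hx : x ∉ tsupport v) : Q v x = 0 := by
  unfold Q; simp [A_zero hx]

theorem t_T : S_SC → S_IBP → S_T := by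
  intro hSC hIBP m v hv hc
  have hW := cont_W2 hv
  have hWs : Continuous fun x => √(W2 v x) := hW.sqrt
  have hWpos : ∀ x, 0 < W2 v x := fun x => lt_of_lt_of_le one_pos (W2_ge v x)
  have hWs0 : ∀ x, √(W2 v x) ≠ 0 := fun x => (Real.sqrt_pos.2 (hWpos x)).ne'
  have hc1 : Continuous fun x => S2 v x / √(W2 v x) := (cont_S2 hv).div hWs hWs0
  have hc2 : Continuous fun x => Q v x / (W2 v x * √(W2 v x)) :=
    (cont_Q hv).div (hW.mul hWs) fun x => mul_ne_zero (hWpos x).ne' (hWs0 x)
  have hs1 : HasCompactSupport fun x => S2 v x / √(W2 v x) :=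
    HasCompactSupport.intro hc fun x hx => by rw [S2_zero hx, zero_div]
  have hs2 : HasCompactSupport fun x => Q v x / (W2 v x * √(W2 v x)) :=
    HasCompactSupport.intro hc fun x hx => by rw [Q_zero hx, zero_div]
  have i1 := hc1.integrable_of_hasCompactSupport (μ := volume) hs1
  have i2 := hc2.integrable_of_hasCompactSupport (μ := volume) hs2
  have e : (fun x => Scal (euc v) x * volDensity (euc v) x) =
      fun x => S2 v x / √(W2 v x) - 2 * (Q v x / (W2 v x * √(W2 v x))) := by
    funext x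
    rw [hSC m v hv x, mul_div_assoc]
  rw [e, integral_sub i1 (i2.const_mul 2), integral_const_mul, hIBP m v hv hc]
  ring

end Pool.Agent.U612.OM
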